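import Pool.Agent.Helper85.Finitary.Main

/-!
Finitary coin factors on invariant sets, for arbitrary alphabets with at least sixteen letters.
-/

set_option autoImplicit false
open MeasureTheory Set
open scoped ENNReal

namespace Pool.Agent.Helper85.FinOwn

open Pool.Agent.Helper85.Finitary

universe u

/-- the complement of the diagonal set is not analytic -/
theorem not_analyticSet_Dg_compl : ¬ AnalyticSet (Dgᶜ : Set (ℕ → ℕ)) := by
  intro h2
  obtain ⟨e, he⟩ := exists_code_of_analytic h2
  have := he e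
  simp only [mem_compl_iff, Dg, mem_ofPred_eq] at this
  tauto

/-- the condition with a total map and an arbitrary set of full outer measure -/
def InG {A : Type u} [MeasurableSpace A] (p : Measure Bool) (μ : Measure (ℤ → A)) : Prop :=
  ∃ φ : (ℤ → A) → (ℤ → Bool), Measurable φ ∧
    (∀ (s : Finset ℤ) (w : ℤ → Bool),
      Measure.map φ μ {z | ∀ i ∈ s, z i = w i} = ∏ i ∈ s, p {w i}) ∧
    ∃ X₀ : Set (ℤ → A), μ X₀ᶜ = 0 ∧
      (∀ x ∈ X₀, φ (fun i => x (i + 1)) = fun i => φ x (i + 1)) ∧
      ∀ x ∈ X₀, ∃ n : ℕ, ∀ y ∈ X₀,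
        (∀ i : ℤ, |i| ≤ (n : ℤ) → y i = x i) → φ y 0 = φ x 0

lemma inF_iff_inG (μ : ProbabilityMeasure (ℤ → Al))
    (h : Measure.map (fun x : ℤ → Al => fun i => x (i + 1)) (μ : Measure (ℤ → Al)) = μ) :
    InF μ ↔ InG coin (μ : Measure (ℤ → Al)) := by
  constructor
  · exact fun h1 => h1.2
  · exact fun h1 => ⟨h, h1⟩

section transport

variable {A : Type u} [MeasurableSpace A]

/-- letterwise image -/
def emb (e : Al → A) (x : ℤ → Al) : ℤ → A := fun i => e (x i)

omit [MeasurableSpace A] in
lemma emb_apply (e : Al → A) (x : ℤ → Al) (i : ℤ) : emb e x i = e (x i) := rfl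

lemma measurable_emb (e : Al → A) : Measurable (emb e) :=
  measurable_pi_lambda _ fun i => (measurable_of_countable e).comp (measurable_pi_apply i)

theorem inG_map_iff (p : Measure Bool) (e : Al → A) (l : A → Al) (hl : Measurable l)
    (hle : ∀ a, l (e a) = a) (μ : Measure (ℤ → Al)) :
    InG p (Measure.map (emb e) μ) ↔ InG p μ := by
  have hE := measurable_emb e
  have hL : Measurable fun (z : ℤ → A) (i : ℤ) => l (z i) :=
    measurable_pi_lambda _ fun i => hl.comp (measurable_pi_apply i)
  have hLE : (fun (z : ℤ → A) (i : ℤ) => l (z i)) ∘ emb e = id := by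
    funext x i
    simp [emb, hle]
  constructor
  · rintro ⟨φ, hφ, h1, X₀, h2, h3, h4⟩
    refine ⟨φ ∘ emb e, hφ.comp hE, ?_, emb e ⁻¹' X₀, ?_, ?_, ?_⟩
    · intro s w
      rw [← Measure.map_map hφ hE]
      exact h1 s w
    · refine le_antisymm ?_ bot_le
      rw [← h2]
      exact Measure.le_map_apply hE.aemeasurable _
    · intro x hx
      exact h3 _ hx
    · intro x hx
      obtain ⟨n, hn⟩ := h4 _ hx
      refine ⟨n, fun y hy hxy => hn _ hy fun i hi => ?_⟩
      rw [emb_apply, emb_apply, hxy i hi]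
  · rintro ⟨φ, hφ, h1, X₀, h2, h3, h4⟩
    refine ⟨φ ∘ fun (z : ℤ → A) (i : ℤ) => l (z i), hφ.comp hL, ?_,
      (fun (z : ℤ → A) (i : ℤ) => l (z i)) ⁻¹' X₀, ?_, ?_, ?_⟩
    · intro s w
      rw [← Measure.map_map hφ hL, Measure.map_map hL hE, hLE, Measure.map_id]
      exact h1 s w
    · have h5 : μ (toMeasurable μ X₀ᶜ) = 0 := by rw [measure_toMeasurable, h2]
      refine measure_mono_null (t := (fun (z : ℤ → A) (i : ℤ) => l (z i)) ⁻¹'
        toMeasurable μ X₀ᶜ) ?_ ?_
      · intro z hz
        exact subset_toMeasurable μ X₀ᶜ hz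
      · rw [Measure.map_apply hE (hL (measurableSet_toMeasurable _ _)), ← preimage_comp, hLE]
        exact h5
    · intro x hx
      exact h3 _ hx
    · intro x hx
      obtain ⟨n, hn⟩ := h4 _ hx
      refine ⟨n, fun y hy hxy => hn _ hy fun i hi => ?_⟩
      simp only [hxy i hi]

lemma map_emb_shift (e : Al → A) (μ : Measure (ℤ → Al))
    (h : Measure.map (fun x : ℤ → Al => fun i => x (i + 1)) μ = μ) :
    Measure.map (fun x : ℤ → A => fun i => x (i + 1)) (Measure.map (emb e) μ)
      = Measure.map (emb e) μ := by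
  have h1 : Measurable fun x : ℤ → A => fun i : ℤ => x (i + 1) :=
    measurable_pi_lambda _ fun k => measurable_pi_apply (k + 1)
  have h2 : Measurable fun x : ℤ → Al => fun i : ℤ => x (i + 1) :=
    measurable_pi_lambda _ fun k => measurable_pi_apply (k + 1)
  rw [Measure.map_map h1 (measurable_emb e)]
  have h3 : (fun x : ℤ → A => fun i : ℤ => x (i + 1)) ∘ emb e
      = emb e ∘ fun x : ℤ → Al => fun i : ℤ => x (i + 1) := rfl
  rw [h3, ← Measure.map_map (measurable_emb e) h2, h]

end transport

section factors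

variable {A : Type u} [MeasurableSpace A]

/-- the condition of the problem file -/
def Fac (p : Measure Bool) [IsProbabilityMeasure p] (μ : Measure (ℤ → A)) : Prop :=
  ∃ (X₀ : Set (ℤ → A)) (φ : X₀ → ℤ → Bool),
    MeasurableSet X₀ ∧ (∀ x, (fun i => x (i + 1)) ∈ X₀ ↔ x ∈ X₀) ∧ μ X₀ = 1 ∧ Measurable φ ∧
    (∀ x y : X₀, (y : ℤ → A) = (fun i => (x : ℤ → A) (i + 1)) → φ y = fun i => φ x (i + 1)) ∧
    Measure.map φ (μ.comap Subtype.val) = Measure.infinitePi (fun _ : ℤ => p) ∧
    ∀ x : X₀, ∃ n : ℕ, ∀ x' : X₀,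
      (∀ i : ℤ, |i| ≤ (n : ℤ) → (x' : ℤ → A) i = (x : ℤ → A) i) → φ x' 0 = φ x 0

lemma cyl_eq_pi (s : Finset ℤ) (w : ℤ → Bool) :
    {z : ℤ → Bool | ∀ i ∈ s, z i = w i} = Set.pi (s : Set ℤ) fun i => {w i} := by
  ext z; simp [Set.mem_pi]

lemma infinitePi_cyl (p : Measure Bool) [IsProbabilityMeasure p] (s : Finset ℤ) (w : ℤ → Bool) :
    Measure.infinitePi (fun _ : ℤ => p) {z | ∀ i ∈ s, z i = w i} = ∏ i ∈ s, p {w i} := by
  rw [cyl_eq_pi, Measure.infinitePi_pi]
  intro i _
  exact measurableSet_singleton _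

theorem eq_infinitePi_of_cyl (p : Measure Bool) [IsProbabilityMeasure p]
    (ν : Measure (ℤ → Bool)) [IsFiniteMeasure ν]
    (h : ∀ (s : Finset ℤ) (w : ℤ → Bool), ν {z | ∀ i ∈ s, z i = w i} = ∏ i ∈ s, p {w i}) :
    ν = Measure.infinitePi (fun _ : ℤ => p) := by
  classical
  apply measure_eq_of_cylinders
  intro I
  apply Measure.ext_of_singleton
  intro v
  let w : ℤ → Bool := fun q => if h : q ∈ I then v ⟨q, h⟩ else false
  have hw : (I.restrict : (ℤ → Bool) → (I → Bool)) ⁻¹' {v}
      = {z : ℤ → Bool | ∀ i ∈ I, z i = w i} := by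
    ext z
    simp only [mem_preimage, mem_singleton_iff, mem_ofPred_eq]
    constructor
    · rintro rfl i hi
      simp [w, hi, Finset.restrict]
    · intro h
      funext q
      have := h q q.2
      simp only [Finset.restrict, this]
      simp [w]
  rw [Measure.map_apply (Finset.measurable_restrict I) (measurableSet_singleton _),
    Measure.map_apply (Finset.measurable_restrict I) (measurableSet_singleton _), hw, h,
    infinitePi_cyl]

theorem fac_iff (p : Measure Bool) [IsProbabilityMeasure p] (μ : Measure (ℤ → A))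
    [IsProbabilityMeasure μ]
    (hinv : Measure.map (fun x : ℤ → A => fun i => x (i + 1)) μ = μ) :
    Fac p μ ↔ InG p μ := by
  classical
  have hsm : Measurable fun x : ℤ → A => fun i : ℤ => x (i + 1) :=
    measurable_pi_lambda _ fun k => measurable_pi_apply (k + 1)
  constructor
  · rintro ⟨X₀, φ, hX, hXs, hX1, hφ, hφs, hφμ, hfin⟩
    have hX0 : μ X₀ᶜ = 0 := by
      rw [prob_compl_eq_zero_iff hX]; exact hX1
    let ψ : (ℤ → A) → (ℤ → Bool) := fun x => if h : x ∈ X₀ then φ ⟨x, h⟩ else fun _ => false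
    have hψ : Measurable ψ := by
      refine Measurable.dite (s := X₀) (f := φ) (g := fun _ : (X₀ᶜ : Set _) => fun _ => false)
        hφ measurable_const hX
    have hψv : ∀ x : X₀, ψ x = φ x := fun x => by
      simp only [ψ, x.2, dite_true]
    have hψm : Measure.map ψ μ = Measure.infinitePi (fun _ : ℤ => p) := by
      rw [← hφμ]
      have h1 : Measure.map Subtype.val (μ.comap (Subtype.val : X₀ → (ℤ → A))) = μ := by
        rw [map_comap_subtype_coe hX]
        exact Measure.restrict_eq_self_of_ae_mem (by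
          rw [ae_iff]; exact hX0)
      conv_lhs => rw [← h1]
      rw [Measure.map_map hψ measurable_subtype_coe]
      congr 1
      funext x
      exact hψv x
    refine ⟨ψ, hψ, ?_, X₀, hX0, ?_, ?_⟩
    · intro s w
      rw [hψm, infinitePi_cyl]
    · intro x hx
      have hx' : (fun i => x (i + 1)) ∈ X₀ := (hXs x).2 hx
      have := hφs ⟨x, hx⟩ ⟨_, hx'⟩ rfl
      rw [← hψv, ← hψv] at this
      exact this
    · intro x hx
      obtain ⟨n, hn⟩ := hfin ⟨x, hx⟩
      refine ⟨n, fun y hy hxy => ?_⟩
      have := hn ⟨y, hy⟩ hxy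
      rw [← hψv, ← hψv] at this
      exact this
  · rintro ⟨φ, hφ, h1, X₀, h2, h3, h4⟩
    -- all shifts preserve the measure
    have hsh : ∀ n : ℤ, Measurable fun x : ℤ → A => fun i : ℤ => x (i + n) := fun n =>
      measurable_pi_lambda _ fun k => measurable_pi_apply (k + n)
    have hmp : ∀ n : ℤ, Measure.map (fun x : ℤ → A => fun i : ℤ => x (i + n)) μ = μ := by
      have hcomp : ∀ m n : ℤ, ((fun x : ℤ → A => fun i : ℤ => x (i + m)) ∘
          fun x : ℤ → A => fun i : ℤ => x (i + n)) = fun x : ℤ → A => fun i : ℤ => x (i + (m + n)) := by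
        intro m n
        funext x i
        simp only [Function.comp]
        congr 1
        ring
      have hz : (fun x : ℤ → A => fun i : ℤ => x (i + 0)) = id := by
        funext x i; simp
      have hneg : Measure.map (fun x : ℤ → A => fun i : ℤ => x (i + (-1))) μ = μ := by
        conv_lhs => rw [← hinv]
        rw [Measure.map_map (hsh (-1)) hsm]
        have := hcomp (-1) 1
        rw [this]
        simp
      intro n
      induction n using Int.induction_on with
      | zero => rw [hz, Measure.map_id]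
      | succ n ih =>
        rw [← hcomp, ← Measure.map_map (hsh _) (hsh 1), hinv, ih]
      | pred n ih =>
        rw [sub_eq_add_neg, ← hcomp, ← Measure.map_map (hsh _) (hsh (-1)), hneg, ih]
    let N : Set (ℤ → A) := toMeasurable μ X₀ᶜ
    have hN : MeasurableSet N := measurableSet_toMeasurable _ _
    have hN0 : μ N = 0 := by
      simp only [N]; rw [measure_toMeasurable, h2]
    let X₁ : Set (ℤ → A) := {x | ∀ n : ℤ, (fun i : ℤ => x (i + n)) ∉ N}
    have hX₁ : MeasurableSet X₁ := by
      have : X₁ = ⋂ n : ℤ, ((fun x : ℤ → A => fun i : ℤ => x (i + n)) ⁻¹' N)ᶜ := by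
        ext x
        simp [X₁]
      rw [this]
      exact MeasurableSet.iInter fun n => (hsh n hN).compl
    have hX₁0 : μ X₁ᶜ = 0 := by
      have : X₁ᶜ = ⋃ n : ℤ, ((fun x : ℤ → A => fun i : ℤ => x (i + n)) ⁻¹' N) := by
        ext x
        simp [X₁]
      rw [this, measure_iUnion_null_iff]
      intro n
      rw [← Measure.map_apply (hsh n) hN, hmp n]
      exact hN0
    have hsub : ∀ x ∈ X₁, x ∈ X₀ := by
      intro x hx
      by_contra hcon
      have := hx 0
      simp only [add_zero] at this
      exact this (subset_toMeasurable μ X₀ᶜ hcon)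
    have hX₁1 : μ X₁ = 1 := by
      rw [← prob_compl_eq_zero_iff hX₁]; exact hX₁0
    refine ⟨X₁, fun x => φ x, hX₁, ?_, hX₁1, hφ.comp measurable_subtype_coe, ?_, ?_, ?_⟩
    · intro x
      constructor
      · intro hx n
        have := hx (n - 1)
        have e1 : (fun i : ℤ => x (i + n)) = fun i : ℤ => (fun j : ℤ => x (j + 1)) (i + (n - 1)) := by
          funext i
          change x (i + n) = x (i + (n - 1) + 1)
          congr 1; ring
        rw [e1]
        exact this
      · intro hx n
        have := hx (n + 1)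
        have e1 : (fun i : ℤ => x (i + (n + 1))) = fun i : ℤ => (fun j : ℤ => x (j + 1)) (i + n) := by
          funext i
          change x (i + (n + 1)) = x (i + n + 1)
          congr 1; ring
        rw [e1] at this
        exact this
    · intro x y hxy
      have := h3 x (hsub x x.2)
      change φ (y : ℤ → A) = _
      rw [hxy]
      exact this
    · have h5 : Measure.map Subtype.val (μ.comap (Subtype.val : X₁ → (ℤ → A))) = μ := by
        rw [map_comap_subtype_coe hX₁]
        exact Measure.restrict_eq_self_of_ae_mem (by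
          rw [ae_iff]; exact hX₁0)
      have h6 : Measure.map (fun x : X₁ => φ x) (μ.comap (Subtype.val : X₁ → (ℤ → A)))
          = Measure.map φ μ := by
        conv_rhs => rw [← h5]
        rw [Measure.map_map hφ measurable_subtype_coe]
        rfl
      rw [h6]
      have : IsProbabilityMeasure (Measure.map φ μ) :=
        Measure.isProbabilityMeasure_map hφ.aemeasurable
      exact eq_infinitePi_of_cyl p _ h1
    · intro x
      obtain ⟨n, hn⟩ := h4 x (hsub x x.2)
      exact ⟨n, fun x' hx' => hn x' (hsub x' x'.2) hx'⟩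

end factors

end Pool.Agent.Helper85.FinOwn
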