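import Pool.Agent.Helper85.FinOwn.Core

/-!
The reduction: a continuous family of invariant measures, composed with a Borel map of Baire space.
-/

set_option autoImplicit false
open MeasureTheory Set
open scoped ENNReal

namespace Pool.Agent.Helper85.FinOwn

open Pool.Agent.Helper85.Finitary

universe u

variable {A : Type u} [TopologicalSpace A] [DiscreteTopology A] [MeasurableSpace A] [BorelSpace A]

/-- a set of invariant measures whose members are described by `Fac` -/
theorem main_abs [Finite A] (hA : 16 ≤ Nat.card A) (p : ProbabilityMeasure Bool)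
    (hp : ∀ b : Bool, (p : Measure Bool) {b} = 2⁻¹)
    (S : Set {μ : ProbabilityMeasure (ℤ → A) //
      Measure.map (fun x : ℤ → A => fun i => x (i + 1)) (μ : Measure (ℤ → A)) = μ})
    (hS : ∀ μ, μ ∈ S ↔ Fac (p : Measure Bool) ((μ : ProbabilityMeasure (ℤ → A)) : Measure (ℤ → A))) :
    ¬ MeasurableSet[borel _] S ∧ ¬ AnalyticSet Sᶜ := by
  classical
  have hpc : (p : Measure Bool) = coin := by
    apply Measure.ext_of_singleton
    intro b
    rw [hp, coin_singleton]
  -- the embedding of alphabets
  obtain ⟨e⟩ : Nonempty (Al ↪ A) := by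
    have : Fintype A := Fintype.ofFinite A
    apply Function.Embedding.nonempty_of_card_le
    rw [← Nat.card_eq_fintype_card (α := A)]
    refine le_trans ?_ hA
    decide
  let l : A → Al := Function.invFun e
  have hle : ∀ a, l (e a) = a := Function.leftInverse_invFun e.injective
  have hl : Measurable l := measurable_of_finite l
  have hec : Continuous (emb e) :=
    continuous_pi fun i => continuous_of_discreteTopology.comp (continuous_apply i)
  -- the continuous family
  let g : (ℕ → Bool) → {μ : ProbabilityMeasure (ℤ → A) //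
      Measure.map (fun x : ℤ → A => fun i => x (i + 1)) (μ : Measure (ℤ → A)) = μ} := fun b =>
    ⟨(mixP fun k => ch (b k) k).map (measurable_emb e).aemeasurable, by
      change Measure.map _ (Measure.map (emb e) (mix fun k => ch (b k) k))
        = Measure.map (emb e) (mix fun k => ch (b k) k)
      exact map_emb_shift e _ (mix_sh _)⟩
  have hg : Continuous g := by
    refine Continuous.subtype_mk ?_ _
    exact (ProbabilityMeasure.continuous_map hec).comp (continuous_mixP ch)
  have hgS : ∀ b, g b ∈ S ↔ InF (mixP fun k => ch (b k) k) := by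
    intro b
    rw [hS]
    change Fac (p : Measure Bool) (Measure.map (emb e) (mix fun k => ch (b k) k)) ↔ _
    have : IsProbabilityMeasure (Measure.map (emb e) (mix fun k => ch (b k) k)) :=
      Measure.isProbabilityMeasure_map (measurable_emb e).aemeasurable
    rw [fac_iff _ _ (map_emb_shift e _ (mix_sh _)), inG_map_iff _ _ l hl hle,
      inF_iff_inG (mixP fun k => ch (b k) k) (mix_sh _), hpc]
    rfl
  have hsw : sw ⁻¹' (g ⁻¹' S) = Dg := by
    ext x
    change g (sw x) ∈ S ↔ _
    rw [hgS]
    exact inF_iff x
  constructor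
  · intro h
    have h1 : MeasurableSet (g ⁻¹' S) := by
      borelize {μ : ProbabilityMeasure (ℤ → A) //
        Measure.map (fun x : ℤ → A => fun i => x (i + 1)) (μ : Measure (ℤ → A)) = μ}
      exact hg.measurable h
    have h2 := measurable_sw h1
    rw [hsw] at h2
    exact not_measurableSet_Dg h2
  · intro h
    obtain ⟨t', ht', hc, hP⟩ := measurable_sw.exists_continuous
    have h2 : @AnalyticSet _ t' ((g ∘ sw) ⁻¹' Sᶜ) :=
      @AnalyticSet.preimage _ _ t' _ hP _ _ h _ (@Continuous.comp _ _ _ t' _ _ _ _ hg hc)
    have h3 : @AnalyticSet (ℕ → ℕ) Pi.topologicalSpace (id '' ((g ∘ sw) ⁻¹' Sᶜ)) :=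
      @AnalyticSet.image_of_continuous (ℕ → ℕ) t' (ℕ → ℕ) Pi.topologicalSpace _ h2 id
        (continuous_id_of_le ht')
    rw [image_id, preimage_comp, preimage_compl, preimage_compl, hsw] at h3
    exact not_analyticSet_Dg_compl h3

end Pool.Agent.Helper85.FinOwn
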